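import Mathlib

/-!
# Long zero-free sequences (theorem of Savchev and Chen, and of Yuan)

A zero-free sequence in a finite abelian group with few subset sums consists of small multiples of
one element.
-/

set_option autoImplicit false
set_option linter.unusedSectionVars false

namespace Pool.Agent.T2H37.FB

open Finset

variable {G ι : Type*} [AddCommGroup G] [DecidableEq G] [DecidableEq ι]

/-- the set of the sums over all subsets -/
def sums (a : ι → G) (S : Finset ι) : Finset G := S.powerset.image fun T => ∑ i ∈ T, a i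

/-- no nonempty subset has sum zero -/
def ZeroFree (a : ι → G) (S : Finset ι) : Prop := ∀ T ⊆ S, T.Nonempty → ∑ i ∈ T, a i ≠ 0

variable {a : ι → G} {S : Finset ι}

omit [DecidableEq ι] in
lemma mem_sums {x : G} : x ∈ sums a S ↔ ∃ T ⊆ S, ∑ i ∈ T, a i = x := by
  simp [sums]

lemma zero_mem : (0 : G) ∈ sums a S := mem_sums.2 ⟨∅, empty_subset _, by simp⟩

lemma total_mem : ∑ i ∈ S, a i ∈ sums a S := mem_sums.2 ⟨S, Subset.refl _, rfl⟩

lemma single_mem {i : ι} (hi : i ∈ S) : a i ∈ sums a S :=
  mem_sums.2 ⟨{i}, singleton_subset_iff.2 hi, by simp⟩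

lemma symm_mem {x : G} (hx : x ∈ sums a S) : ∑ i ∈ S, a i - x ∈ sums a S := by
  obtain ⟨T, hT, rfl⟩ := mem_sums.1 hx
  refine mem_sums.2 ⟨S \ T, sdiff_subset, ?_⟩
  rw [eq_sub_iff_add_eq, sum_sdiff hT]

lemma sums_erase_subset (i : ι) : sums a (S.erase i) ⊆ sums a S := by
  intro x hx
  obtain ⟨T, hT, rfl⟩ := mem_sums.1 hx
  exact mem_sums.2 ⟨T, hT.trans (erase_subset _ _), rfl⟩

lemma mem_sums_erase {i : ι} (hi : i ∈ S) {x : G} :
    x ∈ sums a S ↔ x ∈ sums a (S.erase i) ∨ ∃ y ∈ sums a (S.erase i), x = y + a i := by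
  constructor
  · intro hx
    obtain ⟨T, hT, rfl⟩ := mem_sums.1 hx
    by_cases hiT : i ∈ T
    · right
      refine ⟨∑ j ∈ T.erase i, a j, mem_sums.2 ⟨T.erase i, erase_subset_erase _ hT, rfl⟩, ?_⟩
      rw [sum_erase_add _ _ hiT]
    · left
      exact mem_sums.2 ⟨T, subset_erase.2 ⟨hT, hiT⟩, rfl⟩
  · rintro (h | ⟨y, hy, rfl⟩)
    · exact sums_erase_subset i h
    · obtain ⟨T, hT, rfl⟩ := mem_sums.1 hy
      have hiT : i ∉ T := fun h => (mem_erase.1 (hT h)).1 rfl
      refine mem_sums.2 ⟨insert i T, insert_subset hi (hT.trans (erase_subset _ _)), ?_⟩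
      rw [sum_insert hiT, add_comm]

omit [DecidableEq G] in
lemma ZeroFree.erase (h : ZeroFree a S) (i : ι) : ZeroFree a (S.erase i) := fun T hT =>
  h T (hT.trans (erase_subset _ _))

lemma neg_not_mem (h : ZeroFree a S) {i : ι} (hi : i ∈ S) : -a i ∉ sums a (S.erase i) := by
  intro hx
  obtain ⟨T, hT, hx⟩ := mem_sums.1 hx
  have hiT : i ∉ T := fun h => (mem_erase.1 (hT h)).1 rfl
  refine h (insert i T) (insert_subset hi (hT.trans (erase_subset _ _))) (insert_nonempty _ _) ?_
  rw [sum_insert hiT, hx, add_neg_cancel]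

lemma total_not_mem (h : ZeroFree a S) {i : ι} (hi : i ∈ S) :
    ∑ j ∈ S, a j ∉ sums a (S.erase i) := by
  intro hx
  obtain ⟨T, hT, hx⟩ := mem_sums.1 hx
  have hTS : T ⊆ S := hT.trans (erase_subset _ _)
  refine h (S \ T) sdiff_subset ⟨i, mem_sdiff.2 ⟨hi, fun h => (mem_erase.1 (hT h)).1 rfl⟩⟩ ?_
  have h1 := sum_sdiff (f := a) hTS
  rw [hx] at h1
  exact add_eq_right.1 h1

/-- If removing any element decreases the number of sums by one only then all elements are equal. -/
theorem all_equal [Finite G] (h : ZeroFree a S)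
    (h1 : ∀ i ∈ S, (sums a S).card ≤ (sums a (S.erase i)).card + 1) {i₀ : ι} (hi₀ : i₀ ∈ S) :
    ∀ i ∈ S, a i = a i₀ := by
  set σ := ∑ j ∈ S, a j with hσ
  have hins : ∀ i ∈ S, sums a S = insert σ (sums a (S.erase i)) := by
    intro i hi
    symm
    refine eq_of_subset_of_card_le (insert_subset total_mem (sums_erase_subset i)) ?_
    rw [card_insert_of_notMem (total_not_mem h hi)]
    exact h1 i hi
  set A := sums a (S.erase i₀) with hA
  have hAeq : ∀ i ∈ S, sums a (S.erase i) = A := by
    intro i hi
    have h2 := hins i hi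
    rw [hins i₀ hi₀] at h2
    have h3 : (insert σ (sums a (S.erase i₀))).erase σ =
        (insert σ (sums a (S.erase i))).erase σ := by rw [h2]
    rw [erase_insert (total_not_mem h hi₀), erase_insert (total_not_mem h hi)] at h3
    exact h3.symm
  set a₀ := a i₀ with ha₀
  have hstep : ∀ y ∈ A, y + a₀ ∈ A ∨ y + a₀ = σ := by
    intro y hy
    have h2 : y + a₀ ∈ sums a S := (mem_sums_erase hi₀).2 (Or.inr ⟨y, hy, rfl⟩)
    rw [hins i₀ hi₀, mem_insert] at h2
    exact h2.symm
  have hneg : -a₀ ∉ A := neg_not_mem h hi₀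
  have hσA : σ ∉ A := total_not_mem h hi₀
  have hN : 0 < addOrderOf a₀ := addOrderOf_pos a₀
  obtain ⟨N, hNdef⟩ : ∃ N, N = addOrderOf a₀ := ⟨_, rfl⟩
  rw [← hNdef] at hN
  have hN0 : N • a₀ = 0 := by rw [hNdef]; exact addOrderOf_nsmul_eq_zero a₀
  have hlast : (N - 1) • a₀ = -a₀ := by
    rw [eq_neg_iff_add_eq_zero, ← succ_nsmul, Nat.sub_add_cancel hN, hN0]
  have hex : ∃ j, j • a₀ ∉ A := ⟨N - 1, by rw [hlast]; exact hneg⟩
  classical
  obtain ⟨j, hjdef⟩ : ∃ j, j = Nat.find hex := ⟨_, rfl⟩
  have hj1 : j • a₀ ∉ A := by rw [hjdef]; exact Nat.find_spec hex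
  have hj2 : ∀ k < j, k • a₀ ∈ A := by
    intro k hk
    by_contra hcon
    rw [hjdef] at hk
    exact Nat.find_min hex hk hcon
  have hjN : j ≤ N - 1 := by
    rw [hjdef]
    exact Nat.find_min' hex (by rw [hlast]; exact hneg)
  have hj0 : 0 < j := by
    rcases Nat.eq_zero_or_pos j with h2 | h2
    · exfalso
      apply hj1
      rw [h2, zero_nsmul]
      exact zero_mem
    · exact h2
  have hjσ : j • a₀ = σ := by
    rcases hstep _ (hj2 (j - 1) (by omega)) with h2 | h2
    · exfalso
      apply hj1
      rw [← Nat.sub_add_cancel hj0, succ_nsmul]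
      exact h2
    · rw [← h2, ← succ_nsmul, Nat.sub_add_cancel hj0]
  -- multiples
  have hinj : ∀ k l, k < N → l < N → k • a₀ = l • a₀ → k = l := by
    intro k l hk hl hkl
    rw [hNdef] at hk hl
    exact nsmul_injOn_Iio_addOrderOf hk hl hkl
  have hmult : ∀ i ∈ S, ∃ k : ℕ, a i = k • a₀ := by
    intro i hi
    by_contra hcon
    push Not at hcon
    have hii : i ≠ i₀ := by
      rintro rfl
      exact hcon 1 (by rw [one_nsmul])
    have hz : ∀ z : ℤ, a i ≠ z • a₀ := by
      intro z hz
      have h2 : z • a₀ = (z % (N : ℤ)).toNat • a₀ := by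
        have hN' : (0 : ℤ) < N := by exact_mod_cast hN
        have h3 : (((z % (N : ℤ)).toNat : ℕ) : ℤ) = z % N := Int.toNat_of_nonneg (Int.emod_nonneg _ hN'.ne')
        rw [← natCast_zsmul, h3]
        conv_lhs => rw [← Int.emod_add_mul_ediv z N]
        rw [add_zsmul, mul_comm, mul_zsmul, natCast_zsmul, hN0, zsmul_zero, add_zero]
      rw [h2] at hz
      exact hcon _ hz
    have hall : ∀ k : ℕ, a i + k • a₀ ∈ A := by
      intro k
      induction k with
      | zero =>
        rw [zero_nsmul, add_zero]
        exact single_mem (mem_erase.2 ⟨hii, hi⟩)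
      | succ k ih =>
        rcases hstep _ ih with h2 | h2
        · rw [succ_nsmul, ← add_assoc]
          exact h2
        · exfalso
          rw [← hjσ] at h2
          apply hz ((j : ℤ) - (k + 1))
          rw [sub_zsmul, add_zsmul, one_zsmul, natCast_zsmul, natCast_zsmul, ← h2]
          abel
    have h2 : ∑ l ∈ S.erase i₀, a l = (j - 1) • a₀ := by
      have h3 : ∑ l ∈ S.erase i₀, a l + a₀ = σ := sum_erase_add _ _ hi₀
      rw [← hjσ] at h3
      have h4 : (j - 1) • a₀ + a₀ = j • a₀ := by
        rw [← succ_nsmul, Nat.sub_add_cancel hj0]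
      rw [← h4] at h3
      exact add_right_cancel h3
    have h3 := symm_mem (hall (j - 1))
    rw [h2] at h3
    have h4 : -a i ∈ sums a S := by
      refine sums_erase_subset i₀ ?_
      convert h3 using 1
      abel
    rw [hins i hi, mem_insert] at h4
    rcases h4 with h4 | h4
    · apply hz (-(j : ℤ))
      rw [neg_zsmul, natCast_zsmul, hjσ, ← h4, neg_neg]
    · exact neg_not_mem h hi h4
  -- the set of sums
  have hmul2 : ∀ y ∈ A, ∃ t < N, y = t • a₀ := by
    intro y hy
    obtain ⟨T, hT, rfl⟩ := mem_sums.1 hy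
    have h2 : ∃ k : ℕ, ∑ i ∈ T, a i = k • a₀ := by
      choose! k hk using hmult
      refine ⟨∑ i ∈ T, k i, ?_⟩
      rw [Finset.sum_smul]
      refine sum_congr rfl fun i hi => hk i (mem_of_mem_erase (hT hi))
    obtain ⟨k, hk⟩ := h2
    refine ⟨k % N, Nat.mod_lt _ hN, ?_⟩
    rw [hk]
    conv_lhs => rw [← Nat.mod_add_div k N]
    rw [add_nsmul, mul_comm, mul_nsmul, smul_comm, hN0, nsmul_zero, add_zero]
  have hA2 : ∀ y ∈ A, ∃ t < j, y = t • a₀ := by
    intro y hy
    obtain ⟨t, ht, rfl⟩ := hmul2 y hy
    by_cases htj : t < j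
    · exact ⟨t, htj, rfl⟩
    exfalso
    have htj' : j < t := by
      rcases lt_or_eq_of_le (not_lt.1 htj) with h2 | h2
      · exact h2
      · exfalso
        rw [← h2, hjσ] at hy
        exact hσA hy
    have hall : ∀ r, t + r < N → (t + r) • a₀ ∈ A := by
      intro r
      induction r with
      | zero => intro _; simpa using hy
      | succ r ih =>
        intro hr
        rcases hstep _ (ih (by omega)) with h2 | h2
        · rw [← add_assoc, succ_nsmul]
          exact h2
        · exfalso
          rw [← succ_nsmul, ← hjσ] at h2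
          have := hinj _ _ (by omega) (by omega) h2
          omega
    have h2 := hall (N - 1 - t) (by omega)
    rw [show t + (N - 1 - t) = N - 1 by omega, hlast] at h2
    exact hneg h2
  intro i hi
  have h2 : ∑ l ∈ S.erase i, a l = σ - a i := by
    rw [eq_sub_iff_add_eq]
    exact sum_erase_add _ _ hi
  have h3 : (j - 1) • a₀ ∈ sums a (S.erase i) := by
    rw [hAeq i hi]
    exact hj2 _ (by omega)
  have h4 := symm_mem h3
  rw [h2, hAeq i hi] at h4
  have h5 : σ - a i - (j - 1) • a₀ = a₀ - a i := by
    have h6 : (j - 1) • a₀ + a₀ = σ := by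
      rw [← succ_nsmul, Nat.sub_add_cancel hj0, hjσ]
    rw [← h6]
    abel
  rw [h5] at h4
  obtain ⟨t, ht, htt⟩ := hA2 _ h4
  rcases Nat.eq_zero_or_pos t with h6 | h6
  · rw [h6, zero_nsmul, sub_eq_zero] at htt
    exact htt.symm
  · exfalso
    apply neg_not_mem h hi
    rw [hAeq i hi]
    have h7 : -a i = (t - 1) • a₀ := by
      have h8 : (t - 1) • a₀ + a₀ = t • a₀ := by
        rw [← succ_nsmul, Nat.sub_add_cancel h6]
      rw [← htt] at h8
      have h9 : (t - 1) • a₀ + a₀ = -a i + a₀ := by rw [h8]; abel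
      exact (add_right_cancel h9).symm
    rw [h7]
    exact hj2 _ (by omega)

lemma card_image_range {g : G} {s : ℕ} (h : ∀ j, 1 ≤ j → j ≤ s → j • g ≠ 0) :
    ((range (s + 1)).image fun j => j • g).card = s + 1 := by
  rw [card_image_of_injOn, card_range]
  intro j hj k hk hjk
  have hj' : j ≤ s := by simpa [Nat.lt_succ_iff] using hj
  have hk' : k ≤ s := by simpa [Nat.lt_succ_iff] using hk
  simp only at hjk
  rcases lt_trichotomy j k with h1 | h1 | h1
  · exfalso
    refine h (k - j) (by omega) (by omega) ?_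
    have h2 : (k - j) • g + j • g = k • g := by rw [← add_nsmul, Nat.sub_add_cancel h1.le]
    rw [← hjk] at h2
    exact add_eq_right.1 h2
  · exact h1
  · exfalso
    refine h (j - k) (by omega) (by omega) ?_
    have h2 : (j - k) • g + k • g = j • g := by rw [← add_nsmul, Nat.sub_add_cancel h1.le]
    rw [hjk] at h2
    exact add_eq_right.1 h2

/-- The structure of zero-free sequences of length `l` with at most `2 l - 1` sums. -/
theorem smooth [Finite G] (a : ι → G) : ∀ (n : ℕ) (S : Finset ι), S.card = n → ZeroFree a S →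
    S.Nonempty → (sums a S).card + 1 ≤ 2 * S.card →
    ∃ (g : G) (x : ι → ℕ), (∀ i ∈ S, 1 ≤ x i ∧ a i = x i • g) ∧
      sums a S = (range (∑ i ∈ S, x i + 1)).image (fun j => j • g) ∧
      ∀ j, 1 ≤ j → j ≤ ∑ i ∈ S, x i → j • g ≠ 0 := by
  intro n
  induction n with
  | zero =>
    intro S hS _ hne
    rw [card_eq_zero] at hS
    exact absurd hS hne.ne_empty
  | succ n ih =>
    intro S hS hz hne hcard
    by_cases hex : ∃ i ∈ S, (sums a (S.erase i)).card + 2 ≤ (sums a S).card
    · obtain ⟨i, hi, hle⟩ := hex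
      have hce : (S.erase i).card = n := by rw [card_erase_of_mem hi, hS]; rfl
      have hne' : (S.erase i).Nonempty := by
        rw [← card_pos, hce]
        rcases Nat.eq_zero_or_pos n with h0 | h0
        · exfalso
          rw [h0] at hS
          rw [hS] at hcard
          have : 1 ≤ (sums a (S.erase i)).card := card_pos.2 ⟨0, zero_mem⟩
          omega
        · exact h0
      obtain ⟨g, x, hx1, hx2, hx3⟩ := ih (S.erase i) hce (hz.erase i) hne' (by
        rw [hce]; rw [hS] at hcard; omega)
      set s := ∑ j ∈ S.erase i, x j with hs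
      have hcardA : (sums a (S.erase i)).card = s + 1 := by rw [hx2, card_image_range hx3]
      have hns : n ≤ s := by
        rw [hs, ← hce, card_eq_sum_ones]
        exact sum_le_sum fun j hj => (hx1 j hj).1
      have hmemA : ∀ y, y ∈ sums a (S.erase i) ↔ ∃ j, j ≤ s ∧ j • g = y := by
        intro y
        rw [hx2]
        simp [Nat.lt_succ_iff]
      have hneg := neg_not_mem hz hi
      -- a i is a multiple
      have hint : ∃ t, 1 ≤ t ∧ t ≤ s ∧ a i = t • g := by
        by_contra hcon
        have hdisj : Disjoint (sums a (S.erase i))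
            ((sums a (S.erase i)).image fun y => y + a i) := by
          rw [disjoint_left]
          intro y hy hy'
          rw [mem_image] at hy'
          obtain ⟨z, hz', hzy⟩ := hy'
          obtain ⟨j, hj, rfl⟩ := (hmemA y).1 hy
          obtain ⟨k, hk, rfl⟩ := (hmemA z).1 hz'
          rcases Nat.lt_or_ge k j with h1 | h1
          · apply hcon
            refine ⟨j - k, by omega, by omega, ?_⟩
            have h2 : (j - k) • g + k • g = j • g := by
              rw [← add_nsmul, Nat.sub_add_cancel h1.le]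
            rw [← hzy, add_comm] at h2
            exact (add_left_cancel h2).symm
          · apply hneg
            rw [hmemA]
            refine ⟨k - j, by omega, ?_⟩
            have h2 : (k - j) • g + j • g = k • g := by
              rw [← add_nsmul, Nat.sub_add_cancel h1]
            rw [eq_neg_iff_add_eq_zero]
            have h3 : (k - j) • g + (k • g + a i) = k • g := by rw [hzy]; exact h2
            rw [← add_assoc, add_right_comm] at h3
            exact add_eq_right.1 h3
        have hunion : sums a S = sums a (S.erase i) ∪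
            ((sums a (S.erase i)).image fun y => y + a i) := by
          ext y
          rw [mem_sums_erase hi, mem_union, mem_image]
          constructor
          · rintro (h | ⟨z, hz, rfl⟩)
            · exact Or.inl h
            · exact Or.inr ⟨z, hz, rfl⟩
          · rintro (h | ⟨z, hz, rfl⟩)
            · exact Or.inl h
            · exact Or.inr ⟨z, hz, rfl⟩
        have hc : (sums a S).card = (s + 1) + (s + 1) := by
          rw [hunion, card_union_of_disjoint hdisj, hcardA,
            card_image_of_injective _ (add_left_injective (a i)), hcardA]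
        omega
      obtain ⟨t, ht1, hts, hat⟩ := hint
      refine ⟨g, Function.update x i t, ?_, ?_, ?_⟩
      · intro j hj
        by_cases hji : j = i
        · subst hji
          rw [Function.update_self]
          exact ⟨ht1, hat⟩
        · rw [Function.update_of_ne hji]
          exact hx1 j (mem_erase.2 ⟨hji, hj⟩)
      · have hsum : ∑ j ∈ S, Function.update x i t j = s + t := by
          rw [← sum_erase_add _ _ hi, Function.update_self]
          congr 1
          refine sum_congr rfl fun j hj => ?_
          rw [Function.update_of_ne (mem_erase.1 hj).1]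
        rw [hsum]
        ext y
        rw [mem_sums_erase hi, mem_image]
        constructor
        · rintro (h | ⟨z, hz, rfl⟩)
          · obtain ⟨j, hj, rfl⟩ := (hmemA y).1 h
            exact ⟨j, mem_range.2 (by omega), rfl⟩
          · obtain ⟨j, hj, rfl⟩ := (hmemA z).1 hz
            exact ⟨j + t, mem_range.2 (by omega), by rw [hat, add_nsmul]⟩
        · rintro ⟨j, hj, rfl⟩
          rw [mem_range] at hj
          by_cases hjs : j ≤ s
          · exact Or.inl ((hmemA _).2 ⟨j, hjs, rfl⟩)
          · right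
            refine ⟨(j - t) • g, (hmemA _).2 ⟨j - t, by omega, rfl⟩, ?_⟩
            rw [hat, ← add_nsmul, Nat.sub_add_cancel (by omega)]
      · intro j hj1 hj2
        have hsum : ∑ j ∈ S, Function.update x i t j = s + t := by
          rw [← sum_erase_add _ _ hi, Function.update_self]
          congr 1
          refine sum_congr rfl fun j hj => ?_
          rw [Function.update_of_ne (mem_erase.1 hj).1]
        rw [hsum] at hj2
        by_cases hjs : j ≤ s
        · exact hx3 j hj1 hjs
        · intro h0
          apply hneg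
          rw [hmemA]
          refine ⟨j - t, by omega, ?_⟩
          rw [eq_neg_iff_add_eq_zero, hat, ← add_nsmul, Nat.sub_add_cancel (by omega), h0]
    · push Not at hex
      obtain ⟨i₀, hi₀⟩ := hne
      have hall := all_equal hz (fun i hi => by have := hex i hi; omega) hi₀
      refine ⟨a i₀, fun _ => 1, fun i hi => ⟨le_refl _, by rw [one_nsmul]; exact hall i hi⟩, ?_, ?_⟩
      · rw [← card_eq_sum_ones]
        ext y
        rw [mem_sums, mem_image]
        have hsumT : ∀ T ⊆ S, ∑ i ∈ T, a i = T.card • a i₀ := by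
          intro T hT
          rw [sum_congr rfl fun i hi => hall i (hT hi), sum_const]
        constructor
        · rintro ⟨T, hT, rfl⟩
          refine ⟨T.card, mem_range.2 (Nat.lt_succ_of_le (card_le_card hT)), (hsumT T hT).symm⟩
        · rintro ⟨j, hj, rfl⟩
          rw [mem_range, Nat.lt_succ_iff] at hj
          obtain ⟨T, hT, hTj⟩ := exists_subset_card_eq hj
          exact ⟨T, hT, by rw [hsumT T hT, hTj]⟩
      · intro j hj1 hj2 h0
        rw [← card_eq_sum_ones] at hj2
        obtain ⟨T, hT, hTj⟩ := exists_subset_card_eq hj2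
        refine hz T hT (card_pos.1 (by omega)) ?_
        rw [sum_congr rfl fun i hi => hall i (hT hi), sum_const, hTj, h0]

/-- Minimal zero-sum sequences of length at least `m / 2 + 2` in `ZMod m` have index one. -/
theorem index_one {m : ℕ} (hm : 1 < m) {ι : Type*} [Fintype ι] [DecidableEq ι] (α : ι → ZMod m)
    (h0 : ∑ i, α i = 0)
    (hmin : ∀ B : Finset ι, B.Nonempty → B ≠ univ → ∑ i ∈ B, α i ≠ 0)
    (hl : m + 1 ≤ 2 * (Fintype.card ι - 1)) :
    ∃ t : (ZMod m)ˣ, ∑ i, ((t : ZMod m) * α i).val = m := by
  have : NeZero m := ⟨by omega⟩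
  have hcard : 0 < Fintype.card ι := by omega
  obtain ⟨i₀⟩ := Fintype.card_pos_iff.1 hcard
  set S : Finset ι := univ.erase i₀ with hS
  have hSc : S.card = Fintype.card ι - 1 := by
    rw [hS, card_erase_of_mem (mem_univ _), card_univ]
  have hzf : ZeroFree α S := by
    intro T hT hne
    refine hmin T hne ?_
    rintro rfl
    exact (mem_erase.1 (hT (mem_univ i₀))).1 rfl
  have hSne : S.Nonempty := by
    rw [← card_pos, hSc]
    omega
  have hsc : (sums α S).card ≤ m := by
    have := card_le_univ (sums α S)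
    rwa [ZMod.card] at this
  obtain ⟨g, x, hx1, hx2, hx3⟩ := smooth α S.card S rfl hzf hSne (by rw [hSc]; omega)
  set s := ∑ j ∈ S, x j with hs
  have hs1 : S.card ≤ s := by
    rw [hs, card_eq_sum_ones]
    exact sum_le_sum fun j hj => (hx1 j hj).1
  have hs2 : s + 1 ≤ m := by
    rw [hx2, card_image_range hx3] at hsc
    exact hsc
  have hord : addOrderOf g = m := by
    have hd : addOrderOf g ∣ m := by
      rw [addOrderOf_dvd_iff_nsmul_eq_zero, nsmul_eq_mul, ZMod.natCast_self, zero_mul]
    have hpos : 0 < addOrderOf g := addOrderOf_pos g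
    have hgt : s < addOrderOf g := by
      by_contra hcon
      exact hx3 _ hpos (not_lt.1 hcon) (addOrderOf_nsmul_eq_zero g)
    obtain ⟨k, hk⟩ := hd
    have hk2 : k < 2 := by
      by_contra hcon
      have h3 : addOrderOf g * 2 ≤ m := by
        conv_rhs => rw [hk]
        exact Nat.mul_le_mul_left _ (not_lt.1 hcon)
      omega
    interval_cases k
    · omega
    · omega
  have hg : IsUnit g := by
    have h1 : Function.Surjective fun k : ZMod m => k * g := by
      rw [← Finite.injective_iff_surjective]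
      intro k l hkl
      simp only at hkl
      have h2 : (k - l) * g = 0 := by rw [sub_mul, hkl, sub_self]
      have h3 : (k - l).val • g = 0 := by
        rw [nsmul_eq_mul, ZMod.natCast_zmod_val, h2]
      have h4 : m ∣ (k - l).val := by
        rw [← addOrderOf_dvd_iff_nsmul_eq_zero, hord] at h3
        exact h3
      have h5 : (k - l).val = 0 := Nat.eq_zero_of_dvd_of_lt h4 (ZMod.val_lt _)
      rw [ZMod.val_eq_zero] at h5
      exact sub_eq_zero.1 h5
    obtain ⟨k, hk⟩ := h1 1
    exact IsUnit.of_mul_eq_one k (by rw [mul_comm]; exact hk)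
  obtain ⟨u, rfl⟩ := hg
  refine ⟨u⁻¹, ?_⟩
  have hval : ∀ i ∈ S, (((u⁻¹ : (ZMod m)ˣ) : ZMod m) * α i).val = x i := by
    intro i hi
    rw [(hx1 i hi).2, nsmul_eq_mul, mul_left_comm, Units.inv_mul, mul_one, ZMod.val_natCast,
      Nat.mod_eq_of_lt]
    have : x i ≤ s := single_le_sum (f := x) (fun _ _ => Nat.zero_le _) hi
    omega
  have hlast : α i₀ = -(s • (u : ZMod m)) := by
    have h1 : ∑ i ∈ S, α i + α i₀ = 0 := by
      rw [hS, sum_erase_add _ _ (mem_univ _), h0]
    have h2 : ∑ i ∈ S, α i = s • (u : ZMod m) := by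
      rw [hs, Finset.sum_smul]
      exact sum_congr rfl fun i hi => (hx1 i hi).2
    rw [h2] at h1
    exact (neg_eq_of_add_eq_zero_right h1).symm
  have hvl : (((u⁻¹ : (ZMod m)ˣ) : ZMod m) * α i₀).val = m - s := by
    rw [hlast, nsmul_eq_mul, mul_neg, mul_left_comm, Units.inv_mul, mul_one]
    have h2 : (-(s : ZMod m)) = ((m - s : ℕ) : ZMod m) := by
      rw [Nat.cast_sub (by omega), ZMod.natCast_self, zero_sub]
    rw [h2, ZMod.val_natCast, Nat.mod_eq_of_lt (by omega)]
  rw [← sum_erase_add _ _ (mem_univ i₀), hvl, sum_congr rfl hval]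
  change s + (m - s) = m
  omega

end Pool.Agent.T2H37.FB
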